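import Pool.Agent.W510.CG.Stm

set_option autoImplicit false

namespace Pool.Agent.W880.CG.Iota

open Pool.Agent.W510.CG

variable {L : Type} [AddCommGroup L] [LinearOrder L] [IsOrderedAddMonoid L]

/-- shift -/
noncomputable def sh (s : L) (x : L →₀ ℤ) : L →₀ ℤ := Finsupp.equivMapDomain (Equiv.addRight s) x

theorem sh_apply (s : L) (x : L →₀ ℤ) (ν : L) : sh s x ν = x (ν - s) := by
  unfold sh
  rw [Finsupp.equivMapDomain_apply, Equiv.addRight_symm, Equiv.coe_addRight, sub_eq_add_neg]

theorem sh_zero (x : L →₀ ℤ) : sh 0 x = x := by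
  ext ν
  rw [sh_apply, sub_zero]

theorem v_zero : v (0 : L →₀ ℤ) = 0 := by
  unfold v
  simp

theorem v_sh (s : L) {x : L →₀ ℤ} (hx : x ≠ 0) : v (sh s x) = v x + s := by
  obtain ⟨h1, h2⟩ := v_spec hx
  refine v_eq ?_ ?_
  · rw [sh_apply, add_sub_cancel_right]
    exact h1
  · intro μ hμ
    rw [sh_apply]
    exact h2 _ (lt_sub_iff_add_lt.2 hμ)

/-- the twist -/
noncomputable def tw (x : L →₀ ℤ) : L →₀ ℤ := sh (-(v x + v x)) x

theorem tw_apply (x : L →₀ ℤ) (ν : L) : tw x ν = x (ν + (v x + v x)) := by
  unfold tw
  rw [sh_apply, sub_neg_eq_add]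

theorem v_tw {x : L →₀ ℤ} (hx : x ≠ 0) : v (tw x) = -v x := by
  unfold tw
  rw [v_sh _ hx]
  abel

theorem tw_ne {x : L →₀ ℤ} (hx : x ≠ 0) : tw x ≠ 0 := by
  intro h
  obtain ⟨h1, _⟩ := v_spec hx
  have h2 := tw_apply x (-v x)
  rw [h] at h2
  apply h1
  have e : -v x + (v x + v x) = v x := by abel
  rw [e] at h2
  exact h2.symm

theorem tw_tw {x : L →₀ ℤ} (hx : x ≠ 0) : tw (tw x) = x := by
  ext ν
  rw [tw_apply, v_tw hx, tw_apply]
  congr 1
  abel

open Classical in
/-- the inversion -/
noncomputable def io : Pt L → Pt L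
  | none => some 0
  | some x => if x = 0 then none else some (tw x)

theorem io_none : io (none : Pt L) = some 0 := rfl

theorem io_zero : io (some 0 : Pt L) = none := by simp [io]

theorem io_some {x : L →₀ ℤ} (hx : x ≠ 0) : io (some x) = some (tw x) := by simp [io, hx]

theorem io_invol : Function.Involutive (io : Pt L → Pt L) := by
  intro z
  rcases z with _ | x
  · rw [io_none, io_zero]
  · by_cases hx : x = 0
    · rw [hx, io_zero, io_none]
    · rw [io_some hx, io_some (tw_ne hx), tw_tw hx]

/-- the correction -/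
noncomputable def ph : Pt L → L
  | none => 0
  | some x => v x

theorem ph_none : ph (none : Pt L) = 0 := rfl
theorem ph_some (x : L →₀ ℤ) : ph (some x) = v x := rfl

theorem w_lt {x y : L →₀ ℤ} (hx : x ≠ 0) (hy : y ≠ 0) (h : v x < v y) :
    v (tw x - tw y) = v (x - y) - v x - v y := by
  have h1 : v (x - y) = v y := by
    have e : x - y = -y + x := by abel
    rw [e, v_add_eq (neg_ne_zero.2 hy) (Or.inr (by rw [v_neg]; exact h)), v_neg]
  have h2 : v (tw x - tw y) = v (tw x) := by
    rw [sub_eq_add_neg]
    refine v_add_eq (tw_ne hx) (Or.inr ?_)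
    rw [v_neg, v_tw hx, v_tw hy]
    exact neg_lt_neg h
  rw [h2, h1, v_tw hx]
  abel

theorem w_io_some {x y : L →₀ ℤ} (hxy : x ≠ y) (hx : x ≠ 0) (hy : y ≠ 0) :
    v (tw x - tw y) = v (x - y) - v x - v y := by
  rcases lt_trichotomy (v x) (v y) with h | h | h
  · exact w_lt hx hy h
  · have e : tw x - tw y = sh (-(v x + v x)) (x - y) := by
      unfold tw
      rw [← h]
      ext ν
      rw [Finsupp.sub_apply, sh_apply, sh_apply, sh_apply, Finsupp.sub_apply]
    rw [e, v_sh _ (sub_ne_zero.2 hxy), ← h]
    abel
  · have h1 := w_lt hy hx h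
    have e1 : tw x - tw y = -(tw y - tw x) := by abel
    have e2 : x - y = -(y - x) := by abel
    rw [e1, e2, v_neg, v_neg, h1]
    abel

theorem w_io {a b : Pt L} (hab : a ≠ b) : w (io a) (io b) = w a b - ph a - ph b := by
  rcases a with _ | x <;> rcases b with _ | y
  · exact absurd rfl hab
  · by_cases hy : y = 0
    · rw [hy, io_zero, io_none, w_none_right, w_none_left, ph_none, ph_some, v_zero]
      simp
    · rw [io_some hy, io_none, w_some, w_none_left, ph_none, ph_some, zero_sub, v_neg, v_tw hy]
      simp
  · by_cases hx : x = 0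
    · rw [hx, io_zero, io_none, w_none_right, w_none_left, ph_none, ph_some, v_zero]
      simp
    · rw [io_some hx, io_none, w_some, w_none_right, ph_none, ph_some, sub_zero, v_tw hx]
      simp
  · have hxy : x ≠ y := fun h => hab (by rw [h])
    by_cases hx : x = 0
    · by_cases hy : y = 0
      · exact absurd (hx.trans hy.symm) hxy
      · rw [hx, io_zero, io_some hy, w_none_left, w_some, ph_some, ph_some, v_zero, zero_sub, v_neg]
        simp
    · by_cases hy : y = 0
      · rw [hy, io_zero, io_some hx, w_none_right, w_some, ph_some, ph_some, v_zero, sub_zero]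
        simp
      · rw [io_some hx, io_some hy, w_some, w_some, ph_some, ph_some]
        exact w_io_some hxy hx hy

theorem br0_some_iff {x : L →₀ ℤ} {z : ℤ} :
    br (γ0 L) (some x) = some z ↔ (∀ μ : L, 0 < μ → x μ = 0) ∧ x 0 = z := by
  rw [br_eq_some]
  rfl

theorem main : S_IOTA := by
  intro L _ _ _
  refine ⟨io_invol.toPerm io, ?_, ?_, ?_, ?_⟩
  · rw [mem_Iso]
    intro a b c d hd
    obtain ⟨h1, h2, h3, h4, h5, h6⟩ := hd
    show Y (io a) (io b) (io c) (io d) = Y a b c d
    unfold Y
    rw [w_io h3, w_io h4, w_io h1, w_io h6]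
    abel
  · intro z hz1 hz2
    show io z = z
    rcases z with _ | x
    · exact absurd (br_none _) hz1
    · by_cases h : ∀ μ : L, (γ0 L).2 < μ → x μ = (γ0 L).1 μ
      · have h1 := br_some_of h
        have h0 : x 0 ≠ 0 := by
          intro h0
          apply hz2
          rw [h1]
          exact congrArg some h0
        have hv : v x = 0 := v_eq h0 (fun μ hμ => h μ hμ)
        have hx : x ≠ 0 := by
          intro hx
          rw [hx] at h0
          exact h0 rfl
        rw [io_some hx]
        unfold tw
        rw [hv]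
        simp only [add_zero, neg_zero]
        rw [sh_zero]
      · exact absurd (br_some_not h) hz1
  · intro z hz
    show br (γ0 L) (io z) = some 0
    rcases z with _ | x
    · rw [io_none, br0_some_iff]
      exact ⟨fun μ _ => rfl, rfl⟩
    · by_cases h : ∀ μ : L, (γ0 L).2 < μ → x μ = (γ0 L).1 μ
      · rw [br_some_of h] at hz
        exact absurd hz (by simp)
      · push Not at h
        obtain ⟨μ, hμ, hne⟩ := h
        have hμ' : (0 : L) < μ := hμ
        have hne' : x μ ≠ 0 := hne
        have hx : x ≠ 0 := by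
          intro hx
          rw [hx] at hne'
          exact hne' rfl
        obtain ⟨h1, h2⟩ := v_spec hx
        have hv : 0 < v x := by
          by_contra hcon
          exact hne' (h2 μ (lt_of_le_of_lt (not_lt.1 hcon) hμ'))
        rw [io_some hx, br0_some_iff]
        refine ⟨fun ν hν => ?_, ?_⟩
        · rw [tw_apply]
          refine h2 _ ?_
          have : v x + 0 < v x + (ν + v x) := (add_lt_add_iff_left _).2 (add_pos hν hv)
          rw [add_zero] at this
          refine this.trans_eq ?_
          abel
        · rw [tw_apply, zero_add]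
          exact h2 _ (lt_add_of_pos_left _ hv)
  · intro z hz
    show br (γ0 L) (io z) = none
    rcases z with _ | x
    · rw [br_none] at hz
      exact absurd hz (by simp)
    · rw [br0_some_iff] at hz
      obtain ⟨hz1, hz2⟩ := hz
      by_cases hx : x = 0
      · rw [hx, io_zero, br_none]
      · obtain ⟨h1, h2⟩ := v_spec hx
        have hv : v x < 0 := by
          rcases lt_trichotomy (v x) 0 with h | h | h
          · exact h
          · rw [h] at h1; exact absurd hz2 h1
          · exact absurd (hz1 _ h) h1
        rw [io_some hx]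
        refine br_some_not ?_
        intro hcon
        have h3 := hcon (-v x) (neg_pos.2 hv)
        rw [tw_apply] at h3
        have e : -v x + (v x + v x) = v x := by abel
        rw [e] at h3
        exact h1 h3

end Pool.Agent.W880.CG.Iota
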